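import Pool.Agent.Helper61.BM.ConA

/-!
# Package N5: the conclusion of the Lie algebra argument for the family
-/

set_option autoImplicit false

open Polynomial Matrix Finset Filter

namespace Pool.Agent.Helper61.BM

open Pool.Agent.Helper62.BM Pool.Agent.Helper90.BM

section up

variable (U : Ultrafilter ℕ) {F : ℕ → Type} [∀ i, Field (F i)] {n : ℕ}

theorem mk_coeff (P : Polynomial (∀ i, F i)) (Pi' : ∀ i, Polynomial (F i))
    (h : ∀ i, P.map (Pi.evalRingHom F i) = Pi' i) (l : ℕ) :
    mk U (fun i => (Pi' i).coeff l) = (P.map (mk U)).coeff l := by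
  rw [Polynomial.coeff_map]
  congr 1
  funext i
  rw [← h i, Polynomial.coeff_map]
  rfl

theorem mk_Em (a : ∀ i, Fin n → F i) :
    mkM U (fun i => Em (a i)) = Em fun j => mk U fun i => a i j := by
  ext l j
  rw [mkM_apply]
  show mk U (fun i => (bp (a i) j).coeff l) = (bp (fun j => mk U fun i => a i j) j).coeff l
  rw [mk_coeff U (bp (fun j => (fun i => a i j : ∀ i, F i)) j) (fun i => bp (a i) j) _ l, bp_map]
  intro i
  rw [bp_map]
  rfl

theorem mk_Qx (x : ∀ i, F i) (a : ∀ i, Fin n → F i) :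
    mkM U (fun i => Qx (x i) (a i)) = Qx (mk U x) fun j => mk U fun i => a i j := by
  ext l m
  rw [mkM_apply]
  show mk U (fun i => (((l : ℕ) : F i) - ((m : ℕ) : F i)) / 2 *
    (hp (x i) (a i)).coeff ((l : ℕ) + m + 2)) = _
  have h1 : (fun i => (((l : ℕ) : F i) - ((m : ℕ) : F i)) / 2 *
      (hp (x i) (a i)).coeff ((l : ℕ) + m + 2)) =
      (((l : ℕ) : ∀ i, F i) - ((m : ℕ) : ∀ i, F i)) * (fun i => ((2 : ∀ i, F i) i)⁻¹) *
        (fun i => (hp (x i) (a i)).coeff ((l : ℕ) + m + 2)) := by
    funext i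
    simp [div_eq_mul_inv]
  rw [h1, map_mul, map_mul, map_sub, map_natCast, map_natCast, mk_inv, map_ofNat,
    mk_coeff U (hp x (fun j => (fun i => a i j : ∀ i, F i))) (fun i => hp (x i) (a i)) _ _, hp_map]
  · rw [← div_eq_mul_inv]
    rfl
  · intro i
    rw [hp_map]
    rfl

theorem mk_Bm (x : ∀ i, F i) (a : ∀ i, Fin n → F i) :
    mkM U (fun i => Bm (x i) (a i)) = Bm (mk U x) fun j => mk U fun i => a i j := by
  ext l m
  rw [mkM_apply]
  show mk U (fun i => if l = m then 0 else (2 * (x i - a i m))⁻¹) =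
    if l = m then 0 else (2 * (mk U x - mk U fun i => a i m))⁻¹
  split_ifs
  · exact map_zero (Helper62.BM.mk U)
  · have h1 : (fun i => (2 * (x i - a i m))⁻¹) =
        fun i => ((2 * (x - fun i => a i m) : ∀ i, F i) i)⁻¹ := rfl
    rw [h1, mk_inv, map_mul, map_sub, map_ofNat]

theorem mk_one : mkM U (fun i => (1 : Matrix (Fin n) (Fin n) (F i))) = 1 := by
  ext i j
  rw [mkM_apply]
  by_cases h : i = j
  · subst h
    simp only [Matrix.one_apply_eq]
    exact map_one (Helper62.BM.mk U)
  · simp only [Matrix.one_apply_ne h]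
    exact map_zero (Helper62.BM.mk U)

theorem mk_zero {m : ℕ} : mkM U (fun i => (0 : Matrix (Fin n) (Fin m) (F i))) = 0 := by
  ext i j
  rw [mkM_apply]
  exact map_zero (Helper62.BM.mk U)

theorem mkM_inv (M : ∀ i, Matrix (Fin n) (Fin n) (F i)) (hM : ∀ i, (M i).det ≠ 0) :
    mkM U (fun i => (M i)⁻¹) = (mkM U M)⁻¹ := by
  refine (Matrix.inv_eq_right_inv ?_).symm
  rw [← mkM_mul, ← mk_one U (F := F) (n := n)]
  congr 1
  funext i
  exact Matrix.mul_nonsing_inv _ (isUnit_iff_ne_zero.2 (hM i))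

theorem mk_Bx (x : ∀ i, F i) (a : ∀ i, Fin n → F i) (hM : ∀ i, (Em (a i)).det ≠ 0) :
    mkM U (fun i => Bx (x i) (a i)) = Bx (mk U x) fun j => mk U fun i => a i j := by
  unfold Bx
  rw [mkM_mul, mkM_mul, mkM_inv U _ hM, mk_Em, mk_Bm]

theorem mkM_transpose {m : ℕ} (M : ∀ i, Matrix (Fin n) (Fin m) (F i)) :
    mkM U (fun i => (M i)ᵀ) = (mkM U M)ᵀ := rfl

end up

section nb

variable {F : Type} [Field F] {n : ℕ}

theorem NB_mul (D : Der F) (B M N : Matrix (Fin n) (Fin n) F) :
    NB D B (M * N) = NB D B M * N + M * NB D B N := by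
  unfold NB
  have h : (M * N).map D = M.map D * N + M * N.map D := by
    ext i j
    simp only [Matrix.map_apply, Matrix.mul_apply, Matrix.add_apply, map_sum,
      Derivation.leibniz, smul_eq_mul]
    rw [← Finset.sum_add_distrib]
    refine Finset.sum_congr rfl fun l _ => ?_
    ring
  rw [h]
  noncomm_ring

theorem trace_NB (D : Der F) (B M : Matrix (Fin n) (Fin n) F) :
    (NB D B M).trace = D M.trace := by
  unfold NB
  rw [Matrix.trace_sub, Matrix.trace_add, Matrix.trace_mul_comm B M, add_sub_cancel_right]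
  simp [Matrix.trace, map_sum]

theorem stable {k L : Type} [Field k] [Field L] (f : k →+* L) (Dk : Der k) (D : Der L)
    (hf : ∀ z, f (Dk z) = D (f z)) (Bk : Matrix (Fin n) (Fin n) k) (ψ : Matrix (Fin n) (Fin n) L)
    (hNψ : NB D (Bk.map f) ψ = 0) :
    ∀ η ∈ Submodule.span L {η : Matrix (Fin n) (Fin n) L | ∃ θ' : Matrix (Fin n) (Fin n) k,
      (θ'.map f * ψ).trace = 0 ∧ η = θ'.map f}, NB D (Bk.map f) η ∈
      Submodule.span L {η : Matrix (Fin n) (Fin n) L | ∃ θ' : Matrix (Fin n) (Fin n) k,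
      (θ'.map f * ψ).trace = 0 ∧ η = θ'.map f} := by
  intro η hη
  induction hη using Submodule.span_induction with
  | mem η h =>
    obtain ⟨θ₁, h1, rfl⟩ := h
    have e : (NB Dk Bk θ₁).map f = NB D (Bk.map f) (θ₁.map f) := by
      unfold NB
      rw [← Matrix.map_mul, ← Matrix.map_mul]
      ext i j
      simp only [Matrix.map_apply, Matrix.sub_apply, Matrix.add_apply, map_sub, map_add, hf]
    refine Submodule.subset_span ⟨NB Dk Bk θ₁, ?_, e.symm⟩
    rw [e]
    have e2 := trace_NB D (Bk.map f) (θ₁.map f * ψ)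
    rw [NB_mul, hNψ, Matrix.mul_zero, add_zero, h1, map_zero] at e2
    exact e2
  | zero => rw [NB_zero]; exact Submodule.zero_mem _
  | add x y _ _ hx hy => rw [NB_add]; exact Submodule.add_mem _ hx hy
  | smul c x hx' hx =>
    rw [NB_smul]
    exact Submodule.add_mem _ (Submodule.smul_mem _ _ hx') (Submodule.smul_mem _ _ hx)

end nb

section lift

variable (U : Ultrafilter ℕ) {C : ℕ → Type} [∀ i, Field (C i)]

/-- lifting a finite family of rational functions to the product ring -/
theorem lift_fam {J : Type} [Finite J] (w : J → KX (UP U C)) :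
    ∃ (d : KX (UP U C)) (q : J → Polynomial (∀ i, C i)), d ≠ 0 ∧
      ∀ j, d * w j = ι _ ((q j).map (mk U)) := by
  classical
  cases nonempty_fintype J
  obtain ⟨b, hb⟩ := IsLocalization.exist_integer_multiples_of_finite
    (nonZeroDivisors (UP U C)[X]) w
  choose r hr using hb
  choose q hq using fun j => Polynomial.map_surjective (mk U (F := C)) (mk_surj U) (r j)
  refine ⟨ι _ (b : (UP U C)[X]), q, ?_, fun j => ?_⟩
  · intro h
    exact nonZeroDivisors.ne_zero b.2
      ((map_eq_zero_iff _ (IsFractionRing.injective (UP U C)[X] (KX (UP U C)))).1 h)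
  · rw [hq j, ← Algebra.smul_def]
    exact (hr j).symm

theorem map_zero_of {q : Polynomial (∀ i, C i)}
    (h : ∀ᶠ i in (U : Filter ℕ), q.map (Pi.evalRingHom C i) = 0) : q.map (mk U) = 0 := by
  ext l
  rw [Polynomial.coeff_map, Polynomial.coeff_zero, mk_eq_zero]
  filter_upwards [h] with i hi
  have := congrArg (fun r => Polynomial.coeff r l) hi
  simpa [Polynomial.coeff_map] using this

theorem deg_bound {J : Type} [Finite J] (q : J → Polynomial (∀ i, C i)) :
    ∃ m : ℕ, ∀ j i, ((q j).map (Pi.evalRingHom C i)).natDegree ≤ m := by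
  cases nonempty_fintype J
  refine ⟨∑ j, (q j).natDegree, fun j i => natDegree_map_le.trans ?_⟩
  exact Finset.single_le_sum (f := fun j => (q j).natDegree) (fun _ _ => Nat.zero_le _)
    (Finset.mem_univ j)

end lift

/-- Package N5. -/
theorem con (hLI : S_LI) (hComm : S_Comm) (hRank : S_Rank) (hQb : S_QbHor) (hEQ : S_EQ)
    (hEDet : S_EDet) (hQxDet : S_QxDet) (hLie : S_Lie) : S_Con := by
  intro g hg U C _ p _ _ hp a ha Df hDf f hf hfD A hA θ hθ
  classical
  -- characteristic zero
  have hcast : ∀ (i : ℕ) (m : ℕ), 1 ≤ m → m < p i → ((m : ℕ) : C i) ≠ 0 := by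
    intro i m h1 h2 h3
    rw [CharP.cast_eq_zero_iff (C i) (p i)] at h3
    exact absurd (Nat.le_of_dvd h1 h3) (not_le.2 h2)
  have hC0 : CharZero (UP U C) := Helper62.BM.charZero U fun m hm => by
    filter_upwards [hp m] with i hi
    exact hcast i m hm hi
  have h2i : ∀ᶠ i in (U : Filter ℕ), p i ≠ 2 ∧ (2 : KX (C i)) ≠ 0 := by
    filter_upwards [hp 2] with i hi
    refine ⟨by omega, fun h => ?_⟩
    have h3 : ((2 : ℕ) : KX (C i)) = 0 := by exact_mod_cast h
    rw [CharP.cast_eq_zero_iff (KX (C i)) (p i)] at h3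
    exact absurd (Nat.le_of_dvd (by norm_num) h3) (not_le.2 hi)
  have hDp : ∀ (i : ℕ) (c : KX (C i)), (⇑(Df i))^[p i] c = 0 := fun i c => isDer_iter (hDf i) (p i) c
  have hE : ∀ i, (Em (aX (a i))).det ≠ 0 := fun i => hEDet _ _ _ (inj_aX (ha i))
  -- the values of `f`
  have hft : f (tX (UP U C)) = mk U fun i => tX (C i) := by
    have := hf X
    rw [Polynomial.map_X] at this
    rw [this]
    congr 1
    funext i
    rw [Polynomial.map_X]
  have hfa : ∀ j, f (aX (fun j => mk U fun i => a i j) j) = mk U fun i => aX (a i) j := by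
    intro j
    have := hf (Polynomial.C fun i => a i j)
    rw [Polynomial.map_C] at this
    rw [this]
    congr 1
    funext i
    rw [Polynomial.map_C]
    rfl
  set ah : Fin (2 * g) → UP U C := fun j => mk U fun i => a i j with hah
  have hah_inj : Function.Injective ah := by
    intro j l h
    rw [hah] at h
    simp only at h
    rw [mk_eq] at h
    obtain ⟨i, hi⟩ := h.exists
    exact ha i hi
  have hEk : (Em (aX ah)).det ≠ 0 := hEDet _ _ _ (inj_aX hah_inj)
  have hfQ : (Qx (tX (UP U C)) (aX ah)).map f = mkM U fun i => Qx (tX (C i)) (aX (a i)) := by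
    rw [Qx_map, mk_Qx, hft]
    congr 1
    funext j
    exact hfa j
  have hfB : (Bx (tX (UP U C)) (aX ah)).map f = mkM U fun i => Bx (tX (C i)) (aX (a i)) := by
    rw [Bx_map f _ _ hEk, mk_Bx U _ _ hE, hft]
    congr 1
    funext j
    exact hfa j
  set ψi : ∀ i, Matrix (Fin (2 * g)) (Fin (2 * g)) (KX (C i)) :=
    fun i => pcv (Df i) (Bx (tX (C i)) (aX (a i))) (p i) with hψi
  set ψ := mkM U ψi with hψ
  -- kernel for families
  have hker : ∀ q : Fin (2 * g) → Polynomial (∀ i, C i),
      (∀ᶠ i in (U : Filter ℕ), ψi i *ᵥ (fun j => ι (C i) ((q j).map (Pi.evalRingHom C i))) = 0) →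
      ∀ j, (q j).map (mk U) = 0 := by
    intro q hq j
    obtain ⟨m, hm⟩ := deg_bound q
    apply map_zero_of
    filter_upwards [hq, hp (2 * m + 2 * g + 2)] with i h1 h2
    exact congrFun (ker_Bx hEDet (ha i) (hDf i) (p i) hLI (by omega) m
      (fun j => (q j).map (Pi.evalRingHom C i)) (fun j => hm j i) h2 h1) j
  letI : Algebra (KX (UP U C)) (UP U fun i => KX (C i)) := f.toAlgebra
  have hmapf : ∀ (M : Matrix (Fin (2 * g)) (Fin (2 * g)) (KX (UP U C))),
      M.map (algebraMap (KX (UP U C)) (UP U fun i => KX (C i))) = M.map f := fun _ => rfl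
  obtain ⟨hQ1, hQ2, hQ3, hQ4⟩ := hQxDet (KX (UP U C)) g (fun m hm _ => by
    have : m ≠ 0 := by omega
    exact_mod_cast this) (tX (UP U C)) (aX ah) hg
  refine hLie (KX (UP U C)) (UP U fun i => KX (C i)) (2 * g) (Qx (tX (UP U C)) (aX ah)) ψ
    (by omega) hQ4 hQ1 ?_ ?_ ?_ ?_ ?_ ?_ A hA θ hθ
  · -- rank one
    have h1 : ∀ i, ∃ z l : Fin (2 * g) → KX (C i), p i ≠ 2 → ψi i = Matrix.vecMulVec z l := by
      intro i
      by_cases h : p i ≠ 2
      · obtain ⟨z, l, h3⟩ := rank_Bx hEDet (ha i) (hDf i) (p i) hRank h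
        exact ⟨z, l, fun _ => h3⟩
      · exact ⟨0, 0, fun h' => absurd h' h⟩
    choose z l hzl using h1
    refine ⟨fun j => mk U fun i => z i j, fun j => mk U fun i => l i j, ?_⟩
    have h2 : ψ = mkM U fun i => Matrix.vecMulVec (z i) (l i) := by
      rw [hψ, mkM_eq]
      filter_upwards [h2i] with i hi
      exact hzl i hi.1
    rw [h2]
    ext j m
    rw [mkM_apply, Matrix.vecMulVec_apply, ← map_mul]
    rfl
  · -- not zero
    intro h0
    have h1 : ∀ᶠ i in (U : Filter ℕ), ψi i = 0 := by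
      have : mkM U ψi = mkM U fun i => (0 : Matrix (Fin (2 * g)) (Fin (2 * g)) (KX (C i))) := by
        rw [mk_zero, ← hψ, h0]
      exact (mkM_eq U).1 this
    have h2 := hker (fun _ => 1) (by
      filter_upwards [h1] with i hi
      rw [hi, Matrix.zero_mulVec]) ⟨0, by omega⟩
    rw [Polynomial.map_one] at h2
    exact one_ne_zero h2
  · -- skew
    rw [hmapf, hfQ, hψ, ← mkM_transpose, ← mkM_mul, ← mkM_mul, ← mkM_add, ← mk_zero U, mkM_eq]
    filter_upwards [h2i] with i hi
    exact skew_Qx hEDet (ha i) (hDf i) (p i) hQb hEQ hi.2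
  · -- kernel
    intro v hv
    obtain ⟨d, q, hd, hq⟩ := lift_fam U v
    have h1 : ∀ᶠ i in (U : Filter ℕ),
        ψi i *ᵥ (fun j => ι (C i) ((q j).map (Pi.evalRingHom C i))) = 0 := by
      have h2 : ψ *ᵥ (fun j => f (ι _ ((q j).map (mk U)))) = 0 := by
        have h3 : (fun j => f (ι _ ((q j).map (mk U)))) =
            f d • fun j => algebraMap (KX (UP U C)) (UP U fun i => KX (C i)) (v j) := by
          funext j
          rw [← hq j, map_mul]
          rfl
        rw [h3, Matrix.mulVec_smul, hv, smul_zero]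
      have h4 : ∀ j, ∀ᶠ i in (U : Filter ℕ),
          (ψi i *ᵥ (fun j => ι (C i) ((q j).map (Pi.evalRingHom C i)))) j = 0 := by
        intro j
        have h5 : ∑ l, ψ j l * f (ι _ ((q l).map (Helper62.BM.mk U))) = 0 := congrFun h2 j
        have h6 : (fun i => (ψi i *ᵥ (fun j => ι (C i) ((q j).map (Pi.evalRingHom C i)))) j) =
            fun i => ∑ l, (fun i => ψi i j l * ι (C i) ((q l).map (Pi.evalRingHom C i))) i := rfl
        rw [← mk_eq_zero, h6, mk_sum, ← h5]
        refine Finset.sum_congr rfl fun l _ => ?_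
        rw [hf, hψ, mkM_apply, ← map_mul]
        rfl
      filter_upwards [Filter.eventually_all.2 h4] with i hi
      funext j
      exact hi j
    funext j
    have h6 := hker q h1 j
    have h7 := hq j
    rw [h6, map_zero] at h7
    exact (mul_eq_zero.1 h7).resolve_left hd
  · -- commutant
    intro x hx
    obtain ⟨d, q, hd, hq⟩ := lift_fam U fun s : Fin (2 * g) × Fin (2 * g) => x s.1 s.2
    obtain ⟨m, hm⟩ := deg_bound q
    set xi : ∀ i, Matrix (Fin (2 * g)) (Fin (2 * g)) (C i)[X] :=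
      fun i => Matrix.of fun j l => (q (j, l)).map (Pi.evalRingHom C i) with hxi
    have h1 : (mkM U fun i => (xi i).map (ι (C i))) = f d • x.map f := by
      ext j l
      rw [mkM_apply, Matrix.smul_apply, Matrix.map_apply, smul_eq_mul, ← map_mul, hq (j, l), hf]
      rfl
    have h2 : ∀ᶠ i in (U : Filter ℕ), (xi i).map (ι (C i)) * ψi i = ψi i * (xi i).map (ι (C i)) := by
      rw [← mkM_eq, mkM_mul, mkM_mul, h1, Matrix.smul_mul, Matrix.mul_smul]
      congr 1
    have h3 : ∀ᶠ i in (U : Filter ℕ), ∃ c : (C i)[X], xi i = Matrix.diagonal fun _ => c := by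
      filter_upwards [h2, hp (4 * m + 16 * g + 10)] with i h4 h5
      exact comm_Bx hEDet hComm (ha i) (hDf i) (p i) hg m (xi i) (fun j l => hm (j, l) i) h5 h4
    have h4 : ∀ j l, j ≠ l → x j l = 0 := by
      intro j l hjl
      have h5 : (q (j, l)).map (mk U) = 0 := by
        apply map_zero_of
        filter_upwards [h3] with i hi
        obtain ⟨c, hc⟩ := hi
        have := congrFun (congrFun hc j) l
        rw [Matrix.diagonal_apply_ne _ hjl] at this
        exact this
      have h7 := hq (j, l)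
      rw [h5, map_zero] at h7
      exact (mul_eq_zero.1 h7).resolve_left hd
    have h5 : ∀ j l, x j j = x l l := by
      intro j l
      have h6 : (q (j, j) - q (l, l)).map (mk U) = 0 := by
        apply map_zero_of
        filter_upwards [h3] with i hi
        obtain ⟨c, hc⟩ := hi
        have e1 := congrFun (congrFun hc j) j
        have e2 := congrFun (congrFun hc l) l
        rw [Matrix.diagonal_apply_eq] at e1 e2
        rw [Polynomial.map_sub]
        exact sub_eq_zero.2 (e1.trans e2.symm)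
      rw [Polynomial.map_sub] at h6
      have h7 : d * (x j j - x l l) = 0 := by
        rw [mul_sub]
        have e1 := hq (j, j)
        have e2 := hq (l, l)
        simp only at e1 e2
        rw [e1, e2, ← map_sub, h6, map_zero]
      exact sub_eq_zero.1 ((mul_eq_zero.1 h7).resolve_left hd)
    refine ⟨x ⟨0, by omega⟩ ⟨0, by omega⟩, ?_⟩
    ext j l
    by_cases hjl : j = l
    · subst hjl
      rw [Matrix.diagonal_apply_eq]
      exact h5 _ _
    · rw [Matrix.diagonal_apply_ne _ hjl]
      exact h4 _ _ hjl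
  · -- the span is stable
    intro θ' hθ'
    set D := der U Df with hD
    set B := mkM U fun i => Bx (tX (C i)) (aX (a i)) with hB
    set W : Submodule (UP U fun i => KX (C i))
        (Matrix (Fin (2 * g)) (Fin (2 * g)) (UP U fun i => KX (C i))) :=
      Submodule.span (UP U fun i => KX (C i)) {η | ∃ θ' : Matrix (Fin (2 * g)) (Fin (2 * g))
        (KX (UP U C)), (θ'.map (algebraMap (KX (UP U C)) (UP U fun i => KX (C i))) * ψ).trace = 0 ∧
          η = θ'.map (algebraMap (KX (UP U C)) (UP U fun i => KX (C i)))} with hW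
    have hNψ : NB D B ψ = 0 := by
      rw [hD, hB, hψ, ← mkM_NB, ← mk_zero U]
      congr 1
      funext i
      exact hor_pcv (p i) (Df i) (hDp i) _
    obtain ⟨Dk, hDk, -⟩ := Pool.Agent.Helper12.BM.frac (UP U C)
    have hst : ∀ η ∈ W, NB D B η ∈ W := by
      have := stable f Dk D (hfD Dk hDk) (Bx (tX (UP U C)) (aX ah)) ψ (by rw [hfB]; exact hNψ)
      rw [hfB] at this
      exact this
    have hmem : θ'.map (algebraMap (KX (UP U C)) (UP U fun i => KX (C i))) ∈ W :=
      Submodule.subset_span ⟨θ', hθ', rfl⟩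
    exact dpm U (fun i => KX (C i)) p Df hDp (2 * g) (fun i => Bx (tX (C i)) (aX (a i))) W hst _ hmem

end Pool.Agent.Helper61.BM
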