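import Pool.Agent.Helper90.BM.DPM
import Pool.Agent.Helper12.BM.Frac

/-!
# Package N5: preparations over one field
-/

set_option autoImplicit false

open Polynomial Matrix Finset Filter

namespace Pool.Agent.Helper61.BM

open Pool.Agent.Helper62.BM Pool.Agent.Helper90.BM

section maps

variable {R S : Type} [CommRing R] [CommRing S] (φ : R →+* S) {n : ℕ}

theorem bp_map (a : Fin n → R) (j : Fin n) : (bp a j).map φ = bp (fun i => φ (a i)) j := by
  unfold bp
  rw [Polynomial.map_prod]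
  simp

theorem Em_map (a : Fin n → R) : (Em a).map φ = Em fun j => φ (a j) := by
  ext l j
  simp only [Em, Matrix.map_apply, Matrix.of_apply, ← bp_map, Polynomial.coeff_map]

theorem hp_map (t : R) (a : Fin n → R) : (hp t a).map φ = hp (φ t) fun j => φ (a j) := by
  unfold hp
  rw [Polynomial.map_mul, Polynomial.map_prod]
  simp

variable {F K : Type} [Field F] [Field K] (ψ : F →+* K)

theorem Qx_map (x : F) (a : Fin n → F) : (Qx x a).map ψ = Qx (ψ x) fun j => ψ (a j) := by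
  ext l m
  simp only [Qx, Matrix.map_apply, Matrix.of_apply, ← hp_map, Polynomial.coeff_map]
  rw [map_mul, map_div₀, map_sub, map_natCast, map_natCast, map_ofNat]

theorem Bm_map (x : F) (a : Fin n → F) : (Bm x a).map ψ = Bm (ψ x) fun j => ψ (a j) := by
  ext l m
  simp only [Bm, Matrix.map_apply, Matrix.of_apply]
  split_ifs
  · exact map_zero ψ
  · rw [map_inv₀, map_mul, map_sub, map_ofNat]

theorem inv_map (M : Matrix (Fin n) (Fin n) F) (hM : M.det ≠ 0) :
    (M⁻¹).map ψ = (M.map ψ)⁻¹ := by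
  refine (Matrix.inv_eq_right_inv ?_).symm
  rw [← Matrix.map_mul, Matrix.mul_nonsing_inv _ (isUnit_iff_ne_zero.2 hM),
    Matrix.map_one _ (map_zero ψ) (map_one ψ)]

theorem Bx_map (x : F) (a : Fin n → F) (hE : (Em a).det ≠ 0) :
    (Bx x a).map ψ = Bx (ψ x) fun j => ψ (a j) := by
  unfold Bx
  rw [Matrix.map_mul, Matrix.map_mul, inv_map ψ _ hE, Em_map, Bm_map]

end maps

section pc

variable {F : Type} [Field F] (p : ℕ) [Fact p.Prime] [CharP F p] (D : Der F)
  (hD : ∀ c : F, (⇑D)^[p] c = 0) {n : ℕ}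

omit p [Fact p.Prime] [CharP F p] in
theorem D_mulVec_const (E : Matrix (Fin n) (Fin n) F) (hDE : ∀ i j, D (E i j) = 0)
    (v : Fin n → F) (i : Fin n) : D ((E *ᵥ v) i) = (E *ᵥ fun j => D (v j)) i := by
  simp only [Matrix.mulVec, dotProduct]
  rw [map_sum]
  refine Finset.sum_congr rfl fun j _ => ?_
  rw [Derivation.leibniz, hDE, smul_zero, add_zero, smul_eq_mul]

omit p [Fact p.Prime] [CharP F p] in
theorem nab_gauge (E B : Matrix (Fin n) (Fin n) F) (hE : E.det ≠ 0) (hDE : ∀ i j, D (E i j) = 0)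
    (v : Fin n → F) : nab D (E * B * E⁻¹) (E *ᵥ v) = E *ᵥ nab D B v := by
  have h1 : E⁻¹ * E = 1 := Matrix.nonsing_inv_mul _ (isUnit_iff_ne_zero.2 hE)
  have h2 : nab D B v = (fun j => D (v j)) + B *ᵥ v := rfl
  rw [h2, Matrix.mulVec_add]
  funext i
  unfold nab
  rw [D_mulVec_const D E hDE, Matrix.mulVec_mulVec, mul_assoc (E * B), h1, mul_one,
    ← Matrix.mulVec_mulVec]
  rfl

include hD in
theorem gauge (E B : Matrix (Fin n) (Fin n) F) (hE : E.det ≠ 0) (hDE : ∀ i j, D (E i j) = 0) :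
    pcv D (E * B * E⁻¹) p = E * pcv D B p * E⁻¹ := by
  have hu := isUnit_iff_ne_zero.2 hE
  have h0 : Function.Semiconj (fun v => E *ᵥ v) (nab D B) (nab D (E * B * E⁻¹)) := fun v =>
    (nab_gauge D E B hE hDE v).symm
  have h1 : ∀ v : Fin n → F, (pcv D (E * B * E⁻¹) p * E) *ᵥ v = (E * pcv D B p) *ᵥ v := by
    intro v
    rw [← Matrix.mulVec_mulVec, ← Matrix.mulVec_mulVec,
      ← Pool.Agent.Helper12.BM.pcv F p D hD, ← Pool.Agent.Helper12.BM.pcv F p D hD]
    exact ((h0.iterate_right p) v).symm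
  have h2 : pcv D (E * B * E⁻¹) p * E = E * pcv D B p := by
    ext i j
    have := congrFun (h1 (Pi.single j 1)) i
    simpa using this
  rw [← h2, Matrix.mul_assoc _ E E⁻¹, Matrix.mul_nonsing_inv _ hu, Matrix.mul_one]

include hD in
theorem hor_pcv (B : Matrix (Fin n) (Fin n) F) : NB D B (pcv D B p) = 0 := by
  have h1 : ∀ v : Fin n → F, pcv D B p *ᵥ nab D B v = nab D B (pcv D B p *ᵥ v) := by
    intro v
    rw [← Pool.Agent.Helper12.BM.pcv F p D hD, ← Pool.Agent.Helper12.BM.pcv F p D hD]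
    exact (Function.iterate_succ_apply (nab D B) p v).symm.trans
      (Function.iterate_succ_apply' (nab D B) p v)
  ext i j
  have h2 := congrFun (h1 (Pi.single j 1)) i
  have h3 : nab D B (Pi.single j 1) = B.col j := by
    funext l
    unfold nab
    have : D ((Pi.single j 1 : Fin n → F) l) = 0 := by
      by_cases h : l = j
      · subst h
        simp
      · simp [Pi.single_eq_of_ne h]
    rw [this, zero_add, Matrix.mulVec_single_one]
  have h4 : (pcv D B p *ᵥ B.col j) i = (pcv D B p * B) i j := rfl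
  rw [h3, h4, Matrix.mulVec_single_one] at h2
  unfold NB
  have h5 : nab D B ((pcv D B p).col j) i = D (pcv D B p i j) + (B * pcv D B p) i j := rfl
  rw [Matrix.sub_apply, Matrix.add_apply, h2, h5, Matrix.map_apply]
  simp

include hD in
theorem skew_gen (B Q : Matrix (Fin n) (Fin n) F)
    (hQ : ∀ i j, D (Q i j) + (B * Q + Q * Bᵀ) i j = 0) :
    pcv D B p * Q + Q * (pcv D B p)ᵀ = 0 := by
  rw [← Pool.Agent.Helper12.BM.pcvT F p D hD (Fin n) (Fin n) B B Q]
  set T := (fun M : Matrix (Fin n) (Fin n) F =>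
    (Matrix.of fun i j => D (M i j) + (B * M + M * Bᵀ) i j : Matrix (Fin n) (Fin n) F)) with hT
  have h0 : T 0 = 0 := by
    rw [hT]
    ext i j
    simp
  have h1 : T Q = 0 := by
    rw [hT]
    ext i j
    exact hQ i j
  have h2 : ∀ k : ℕ, T^[k] 0 = 0 := by
    intro k
    induction k with
    | zero => rfl
    | succ k ih => rw [Function.iterate_succ_apply, h0, ih]
  have hp : p = (p - 1) + 1 := (Nat.succ_pred_eq_of_pos (Fact.out : p.Prime).pos).symm
  rw [hp, Function.iterate_succ_apply, h1, h2]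

end pc

section family

variable {C : Type} [Field C]

theorem isDer_unique {D₁ D₂ : Der (KX C)} (h1 : IsDer D₁) (h2 : IsDer D₂) : D₁ = D₂ := by
  ext z
  obtain ⟨x, y, hy, hz⟩ := IsFractionRing.div_surjective (A := C[X]) z
  have hy0 : (algebraMap C[X] (KX C)) y ≠ 0 := by
    intro h
    exact nonZeroDivisors.ne_zero hy ((map_eq_zero_iff _ (IsFractionRing.injective C[X] (KX C))).1 h)
  have hzy : z * ι C y = ι C x := by
    rw [← hz, div_mul_cancel₀ _ hy0]
  have key : ∀ D : Der (KX C), IsDer D → ι C y * D z = ι C (derivative x) - z * ι C (derivative y) := by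
    intro D hD
    have := congrArg D hzy
    rw [Derivation.leibniz, smul_eq_mul, smul_eq_mul, hD, hD] at this
    rw [← this]
    ring
  have := (key D₁ h1).trans (key D₂ h2).symm
  exact mul_left_cancel₀ hy0 this

theorem isDer_iter {D : Der (KX C)} (hD : IsDer D) (p : ℕ) [Fact p.Prime] [CharP C p] (c : KX C) :
    (⇑D)^[p] c = 0 := by
  obtain ⟨D', h1, h2⟩ := Pool.Agent.Helper12.BM.frac C
  rw [isDer_unique hD h1]
  exact h2 p c

/-- The constants `C → C(X)`. -/
noncomputable def κ (C : Type) [Field C] : C →+* KX C := (ι C).comp Polynomial.C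

theorem aX_eq {n : ℕ} (a : Fin n → C) : aX a = fun j => κ C (a j) := rfl

theorem Em_aX {n : ℕ} (a : Fin n → C) : Em (aX a) = (Em a).map (κ C) := by
  rw [Em_map, aX_eq]

theorem D_κ {D : Der (KX C)} (hD : IsDer D) (c : C) : D (κ C c) = 0 := by
  show D (ι C (Polynomial.C c)) = 0
  rw [hD, derivative_C, map_zero]

theorem D_tX {D : Der (KX C)} (hD : IsDer D) : D (tX C) = 1 := by
  rw [hD, derivative_X, map_one]

theorem inj_aX {n : ℕ} {a : Fin n → C} (ha : Function.Injective a) : Function.Injective (aX a) :=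
  fun _ _ h => ha ((κ C).injective h)

variable (hEDet : S_EDet) {n : ℕ} {a : Fin n → C} (ha : Function.Injective a)
  {D : Der (KX C)} (hD : IsDer D) (p : ℕ) [Fact p.Prime] [CharP C p]

include hEDet ha hD in
theorem pcv_Bx : pcv D (Bx (tX C) (aX a)) p =
    Em (aX a) * pcv D (Bm (tX C) (aX a)) p * (Em (aX a))⁻¹ := by
  refine gauge p D (isDer_iter hD p) _ _ (hEDet _ _ _ (inj_aX ha)) fun i j => ?_
  rw [Em_aX, Matrix.map_apply, D_κ hD]

include hEDet ha hD in
theorem rank_Bx (hRank : S_Rank) (h2 : p ≠ 2) :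
    ∃ z l : Fin n → KX C, pcv D (Bx (tX C) (aX a)) p = Matrix.vecMulVec z l := by
  obtain ⟨z, l, h⟩ := hRank (KX C) p D h2 (isDer_iter hD p) n (tX C) (aX a) (D_tX hD)
    (fun j => D_κ hD (a j)) (inj_aX ha)
  refine ⟨Em (aX a) *ᵥ z, l ᵥ* (Em (aX a))⁻¹, ?_⟩
  rw [pcv_Bx hEDet ha hD p, h, Matrix.mul_vecMulVec, Matrix.vecMulVec_mul]

include hEDet ha hD in
theorem hor_Qx (hQb : S_QbHor) (hEQ : S_EQ) (h2 : (2 : KX C) ≠ 0) (i j : Fin n) :
    D (Qx (tX C) (aX a) i j) + (Bx (tX C) (aX a) * Qx (tX C) (aX a) +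
      Qx (tX C) (aX a) * (Bx (tX C) (aX a))ᵀ) i j = 0 := by
  have hE : (Em (aX a)).det ≠ 0 := hEDet _ _ _ (inj_aX ha)
  have hu := isUnit_iff_ne_zero.2 hE
  have hH := hQb (KX C) D h2 n (tX C) (aX a) (D_tX hD) (fun j => D_κ hD (a j)) (inj_aX ha)
  set E := Em (aX a) with hEdef
  set Q := Qb (tX C) (aX a) with hQdef
  set B := Bm (tX C) (aX a) with hBdef
  have hB : Bx (tX C) (aX a) = E * B * E⁻¹ := rfl
  have hQ : Qx (tX C) (aX a) = E * Q * Eᵀ := (hEQ (KX C) h2 n (tX C) (aX a) (inj_aX ha)).symm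
  have hDE : ∀ i j, D (E i j) = 0 := fun i j => by
    rw [hEdef, Em_aX, Matrix.map_apply, D_κ hD]
  have hDQ : Q.map D = -(B * Q + Q * Bᵀ) := by
    ext i j
    rw [Matrix.map_apply, Matrix.neg_apply]
    exact eq_neg_of_add_eq_zero_left (hH i j)
  have hDm : (E * Q * Eᵀ).map D = E * Q.map D * Eᵀ := by
    ext i j
    rw [Matrix.map_apply, Matrix.mul_apply, Matrix.mul_apply, map_sum]
    refine Finset.sum_congr rfl fun l _ => ?_
    rw [Derivation.leibniz, Matrix.transpose_apply, hDE, smul_zero, zero_add, smul_eq_mul,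
      mul_comm]
    congr 1
    rw [Matrix.mul_apply, Matrix.mul_apply, map_sum]
    refine Finset.sum_congr rfl fun m _ => ?_
    rw [Derivation.leibniz, hDE, smul_zero, add_zero, smul_eq_mul, Matrix.map_apply]
  have h3 : E * B * E⁻¹ * (E * Q * Eᵀ) = E * (B * Q) * Eᵀ := by
    have : E⁻¹ * E = 1 := Matrix.nonsing_inv_mul _ hu
    calc E * B * E⁻¹ * (E * Q * Eᵀ) = E * B * (E⁻¹ * E) * Q * Eᵀ := by
          simp only [Matrix.mul_assoc]
      _ = _ := by rw [this, Matrix.mul_one]; simp only [Matrix.mul_assoc]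
  have h4 : E * Q * Eᵀ * (E * B * E⁻¹)ᵀ = E * (Q * Bᵀ) * Eᵀ := by
    have : Eᵀ * E⁻¹ᵀ = 1 := by
      rw [← Matrix.transpose_mul, Matrix.nonsing_inv_mul _ hu, Matrix.transpose_one]
    calc E * Q * Eᵀ * (E * B * E⁻¹)ᵀ = E * Q * (Eᵀ * E⁻¹ᵀ) * Bᵀ * Eᵀ := by
          simp only [Matrix.transpose_mul, Matrix.mul_assoc]
      _ = _ := by rw [this, Matrix.mul_one]; simp only [Matrix.mul_assoc]
  rw [hB, hQ, h3, h4]
  have h5 : (E * Q * Eᵀ).map D + (E * (B * Q) * Eᵀ + E * (Q * Bᵀ) * Eᵀ) = 0 := by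
    rw [hDm, hDQ, ← Matrix.add_mul, ← Matrix.mul_add, Matrix.mul_neg, Matrix.neg_mul,
      neg_add_cancel]
  have := congrFun (congrFun h5 i) j
  simpa using this

include hEDet ha hD in
theorem skew_Qx (hQb : S_QbHor) (hEQ : S_EQ) (h2 : (2 : KX C) ≠ 0) :
    pcv D (Bx (tX C) (aX a)) p * Qx (tX C) (aX a) +
      Qx (tX C) (aX a) * (pcv D (Bx (tX C) (aX a)) p)ᵀ = 0 :=
  skew_gen p D (isDer_iter hD p) _ _ (hor_Qx hEDet ha hD hQb hEQ h2)

theorem deg_const_mul {r : ℕ} (c : C) (q : C[X]) (h : q.natDegree ≤ r) :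
    (Polynomial.C c * q).natDegree ≤ r := (natDegree_C_mul_le c q).trans h

include hEDet ha hD in
theorem ker_Bx (hLI : S_LI) (hn : 2 ≤ n) (m : ℕ) (v : Fin n → C[X])
    (hv : ∀ i, (v i).natDegree ≤ m) (hp : 2 * m + n + 2 < p)
    (h : pcv D (Bx (tX C) (aX a)) p *ᵥ (fun i => ι C (v i)) = 0) : v = 0 := by
  have hE0 : (Em a).det ≠ 0 := hEDet _ _ _ ha
  have hu0 := isUnit_iff_ne_zero.2 hE0
  have hE : (Em (aX a)).det ≠ 0 := hEDet _ _ _ (inj_aX ha)
  have hu := isUnit_iff_ne_zero.2 hE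
  rw [pcv_Bx hEDet ha hD p] at h
  set v' : Fin n → C[X] := ((Em a)⁻¹.map Polynomial.C) *ᵥ v with hv'
  have h1 : (fun i => ι C (v' i)) = (Em (aX a))⁻¹ *ᵥ fun i => ι C (v i) := by
    rw [Em_aX, ← inv_map _ _ hE0]
    funext i
    rw [hv']
    simp only [Matrix.mulVec, dotProduct, map_sum, map_mul, Matrix.map_apply]
    rfl
  have h2 : pcv D (Bm (tX C) (aX a)) p *ᵥ (fun i => ι C (v' i)) = 0 := by
    rw [h1]
    have := congrArg (fun w => (Em (aX a))⁻¹ *ᵥ w) h
    simp only [Matrix.mulVec_zero, Matrix.mulVec_mulVec] at this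
    rw [← Matrix.mul_assoc, ← Matrix.mul_assoc, Matrix.nonsing_inv_mul _ hu, Matrix.one_mul] at this
    rw [Matrix.mulVec_mulVec]
    exact this
  have h3 : v' = 0 := by
    refine hLI C p D hD n a ha hn m v' (fun i => ?_) hp h2
    rw [hv']
    simp only [Matrix.mulVec, dotProduct, Matrix.map_apply]
    exact natDegree_sum_le_of_forall_le _ _ fun j _ => deg_const_mul _ _ (hv j)
  have h4 : ((Em a).map Polynomial.C) *ᵥ v' = v := by
    rw [hv', Matrix.mulVec_mulVec, ← Matrix.map_mul, Matrix.mul_nonsing_inv _ hu0,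
      Matrix.map_one _ (map_zero Polynomial.C) (map_one Polynomial.C), Matrix.one_mulVec]
  rw [← h4, h3, Matrix.mulVec_zero]

end family

section comm

variable {C : Type} [Field C]

theorem comm_Bx (hEDet : S_EDet) (hComm : S_Comm) {g : ℕ} {a : Fin (2 * g) → C}
    (ha : Function.Injective a) {D : Der (KX C)} (hD : IsDer D) (p : ℕ) [Fact p.Prime] [CharP C p]
    (hg : 1 ≤ g) (m : ℕ) (x : Matrix (Fin (2 * g)) (Fin (2 * g)) C[X])
    (hx : ∀ i j, (x i j).natDegree ≤ m) (hp : 4 * m + 16 * g + 10 < p)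
    (h : x.map (ι C) * pcv D (Bx (tX C) (aX a)) p = pcv D (Bx (tX C) (aX a)) p * x.map (ι C)) :
    ∃ c : C[X], x = Matrix.diagonal fun _ => c := by
  have hE0 : (Em a).det ≠ 0 := hEDet _ _ _ ha
  have hu0 := isUnit_iff_ne_zero.2 hE0
  have hE : (Em (aX a)).det ≠ 0 := hEDet _ _ _ (inj_aX ha)
  have hu := isUnit_iff_ne_zero.2 hE
  rw [pcv_Bx hEDet ha hD p] at h
  set E := Em (aX a) with hEdef
  set P := pcv D (Bm (tX C) (aX a)) p with hP
  set E1 : Matrix (Fin (2 * g)) (Fin (2 * g)) C[X] := (Em a).map Polynomial.C with hE1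
  set E2 : Matrix (Fin (2 * g)) (Fin (2 * g)) C[X] := (Em a)⁻¹.map Polynomial.C with hE2
  have h12 : E1 * E2 = 1 := by
    rw [hE1, hE2, ← Matrix.map_mul, Matrix.mul_nonsing_inv _ hu0,
      Matrix.map_one _ (map_zero Polynomial.C) (map_one Polynomial.C)]
  have h21 : E2 * E1 = 1 := by
    rw [hE1, hE2, ← Matrix.map_mul, Matrix.nonsing_inv_mul _ hu0,
      Matrix.map_one _ (map_zero Polynomial.C) (map_one Polynomial.C)]
  have hm1 : E1.map (ι C) = E := by
    rw [hE1, hEdef, Em_aX]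
    rfl
  have hm2 : E2.map (ι C) = E⁻¹ := by
    rw [hE2, hEdef, Em_aX, ← inv_map _ _ hE0]
    rfl
  have h1 : (E2 * x * E1).map (ι C) * P = P * (E2 * x * E1).map (ι C) := by
    rw [Matrix.map_mul, Matrix.map_mul, hm1, hm2]
    have e1 : E⁻¹ * E = 1 := Matrix.nonsing_inv_mul _ hu
    have : E⁻¹ * (x.map (ι C) * (E * P * E⁻¹)) * E = E⁻¹ * (E * P * E⁻¹ * x.map (ι C)) * E := by
      rw [h]
    have l1 : E⁻¹ * (x.map (ι C) * (E * P * E⁻¹)) * E = E⁻¹ * x.map (ι C) * E * P := by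
      calc E⁻¹ * (x.map (ι C) * (E * P * E⁻¹)) * E =
          E⁻¹ * x.map (ι C) * E * P * (E⁻¹ * E) := by simp only [Matrix.mul_assoc]
        _ = _ := by rw [e1, Matrix.mul_one]
    have l2 : E⁻¹ * (E * P * E⁻¹ * x.map (ι C)) * E = P * (E⁻¹ * x.map (ι C) * E) := by
      calc E⁻¹ * (E * P * E⁻¹ * x.map (ι C)) * E =
          (E⁻¹ * E) * P * (E⁻¹ * x.map (ι C) * E) := by simp only [Matrix.mul_assoc]
        _ = _ := by rw [e1, Matrix.one_mul]
    rw [l1, l2] at this
    exact this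
  have hdeg : ∀ i j, ((E2 * x * E1) i j).natDegree ≤ m := by
    intro i j
    rw [Matrix.mul_apply]
    refine natDegree_sum_le_of_forall_le _ _ fun l _ => ?_
    rw [hE1, Matrix.map_apply, mul_comm]
    refine deg_const_mul _ _ ?_
    rw [Matrix.mul_apply]
    refine natDegree_sum_le_of_forall_le _ _ fun s _ => ?_
    rw [hE2, Matrix.map_apply]
    exact deg_const_mul _ _ (hx s l)
  obtain ⟨c, hc⟩ := hComm C p D hD g a ha hg m _ hdeg hp h1
  refine ⟨c, ?_⟩
  have h5 : x = E1 * (E2 * x * E1) * E2 := by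
    calc x = (E1 * E2) * x * (E1 * E2) := by rw [h12, Matrix.one_mul, Matrix.mul_one]
      _ = _ := by simp only [Matrix.mul_assoc]
  rw [h5, hc]
  have h6 : (Matrix.diagonal fun _ => c : Matrix (Fin (2 * g)) (Fin (2 * g)) C[X]) = c • 1 := by
    ext i j
    by_cases hij : i = j
    · subst hij
      simp
    · simp [hij]
  rw [h6, Matrix.mul_smul, Matrix.smul_mul, Matrix.mul_one, h12]

end comm

end Pool.Agent.Helper61.BM
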