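import Pool.Agent.Helper61.BM.ConB
import Pool.Agent.Helper62.BM.KStm

/-!
# Package KE: the conclusion of the Lie algebra argument for the cyclic covers
-/

set_option autoImplicit false

open Polynomial Matrix Finset Filter

namespace Pool.Agent.Helper61.BM

open Pool.Agent.Helper62.BM Pool.Agent.Helper90.BM

section maps

variable {F K : Type} [Field F] [Field K] (ψ : F →+* K) {n : ℕ}

theorem Bk_map (κ x : F) (a : Fin n → F) :
    (Bk κ x a).map ψ = Bk (ψ κ) (ψ x) fun j => ψ (a j) := by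
  ext l m
  simp only [Bk, Matrix.map_apply, Matrix.of_apply]
  split_ifs
  · exact map_zero ψ
  · rw [map_mul, map_inv₀, map_sub]

theorem Bkx_map (κ x : F) (a : Fin n → F) (hE : (Em a).det ≠ 0) :
    (Bkx κ x a).map ψ = Bkx (ψ κ) (ψ x) fun j => ψ (a j) := by
  unfold Bkx
  rw [Matrix.map_mul, Matrix.map_mul, inv_map ψ _ hE, Em_map, Bk_map]

end maps

section up

variable (U : Ultrafilter ℕ) {F : ℕ → Type} [∀ i, Field (F i)] {n : ℕ}

theorem mk_Bk (κ x : ∀ i, F i) (a : ∀ i, Fin n → F i) :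
    mkM U (fun i => Bk (κ i) (x i) (a i)) =
      Bk (mk U κ) (mk U x) fun j => mk U fun i => a i j := by
  ext l m
  rw [mkM_apply]
  show mk U (fun i => if l = m then 0 else κ i * (x i - a i m)⁻¹) =
    if l = m then 0 else mk U κ * (mk U x - mk U fun i => a i m)⁻¹
  split_ifs
  · exact map_zero (Helper62.BM.mk U)
  · have h1 : (fun i => κ i * (x i - a i m)⁻¹) =
        κ * fun i => ((x - fun i => a i m : ∀ i, F i) i)⁻¹ := rfl
    rw [h1, map_mul, mk_inv, map_sub]

theorem mk_Bkx (κ x : ∀ i, F i) (a : ∀ i, Fin n → F i) (hM : ∀ i, (Em (a i)).det ≠ 0) :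
    mkM U (fun i => Bkx (κ i) (x i) (a i)) =
      Bkx (mk U κ) (mk U x) fun j => mk U fun i => a i j := by
  unfold Bkx
  rw [mkM_mul, mkM_mul, mkM_inv U _ hM, mk_Em, mk_Bk]

theorem mk_ratio (s m : ℕ) :
    mk U (fun i => (s : F i) / (m : F i)) = (s : UP U F) / (m : UP U F) := by
  have h1 : (fun i => (s : F i) / (m : F i)) =
      (s : ∀ i, F i) * fun i => ((m : ∀ i, F i) i)⁻¹ := by
    funext i
    simp [div_eq_mul_inv]
  rw [h1, map_mul, mk_inv, map_natCast, map_natCast, div_eq_mul_inv]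

end up

section one

variable {C : Type} [Field C] {n : ℕ} {a : Fin n → C}

/-- the change of basis over the polynomials -/
theorem frame (hEDet : S_EDet) (ha : Function.Injective a) :
    ∃ E1 E2 : Matrix (Fin n) (Fin n) C[X], E1 * E2 = 1 ∧ E2 * E1 = 1 ∧
      E1.map (ι C) = Em (aX a) ∧ E2.map (ι C) = (Em (aX a))⁻¹ ∧
      (∀ i j, ∃ c : C, E1 i j = Polynomial.C c) ∧ ∀ i j, ∃ c : C, E2 i j = Polynomial.C c := by
  have hE0 : (Em a).det ≠ 0 := hEDet _ _ _ ha
  have hu0 := isUnit_iff_ne_zero.2 hE0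
  refine ⟨(Em a).map Polynomial.C, (Em a)⁻¹.map Polynomial.C, ?_, ?_, ?_, ?_,
    fun i j => ⟨_, rfl⟩, fun i j => ⟨_, rfl⟩⟩
  · rw [← Matrix.map_mul, Matrix.mul_nonsing_inv _ hu0,
      Matrix.map_one _ (map_zero Polynomial.C) (map_one Polynomial.C)]
  · rw [← Matrix.map_mul, Matrix.nonsing_inv_mul _ hu0,
      Matrix.map_one _ (map_zero Polynomial.C) (map_one Polynomial.C)]
  · rw [Em_aX]
    rfl
  · rw [Em_aX, ← inv_map _ _ hE0]
    rfl

theorem deg_l {d : ℕ} {E : Matrix (Fin n) (Fin n) C[X]} (hE : ∀ i j, ∃ c : C, E i j = Polynomial.C c)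
    {x : Matrix (Fin n) (Fin n) C[X]} (hx : ∀ i j, (x i j).natDegree ≤ d) (i j : Fin n) :
    ((E * x) i j).natDegree ≤ d := by
  rw [Matrix.mul_apply]
  refine natDegree_sum_le_of_forall_le _ _ fun l _ => ?_
  obtain ⟨c, hc⟩ := hE i l
  rw [hc]
  exact deg_const_mul _ _ (hx l j)

theorem deg_r {d : ℕ} {E : Matrix (Fin n) (Fin n) C[X]} (hE : ∀ i j, ∃ c : C, E i j = Polynomial.C c)
    {x : Matrix (Fin n) (Fin n) C[X]} (hx : ∀ i j, (x i j).natDegree ≤ d) (i j : Fin n) :
    ((x * E) i j).natDegree ≤ d := by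
  rw [Matrix.mul_apply]
  refine natDegree_sum_le_of_forall_le _ _ fun l _ => ?_
  obtain ⟨c, hc⟩ := hE l j
  rw [hc, mul_comm]
  exact deg_const_mul _ _ (hx i l)

theorem map_mulVec' (E : Matrix (Fin n) (Fin n) C[X]) (v : Fin n → C[X]) :
    (fun i => ι C ((E *ᵥ v) i)) = E.map (ι C) *ᵥ fun i => ι C (v i) := by
  funext i
  simp only [Matrix.mulVec, dotProduct, map_sum, map_mul, Matrix.map_apply]

theorem map_vecMul' (E : Matrix (Fin n) (Fin n) C[X]) (v : Fin n → C[X]) :
    (fun i => ι C ((v ᵥ* E) i)) = (fun i => ι C (v i)) ᵥ* E.map (ι C) := by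
  funext i
  simp only [Matrix.vecMul, dotProduct, map_sum, map_mul, Matrix.map_apply]

variable (hEDet : S_EDet) (ha : Function.Injective a)
include hEDet ha

theorem ker_gauge (P : Matrix (Fin n) (Fin n) (KX C)) (d : ℕ)
    (hP : ∀ v : Fin n → C[X], (∀ i, (v i).natDegree ≤ d) → P *ᵥ (fun i => ι C (v i)) = 0 → v = 0)
    (v : Fin n → C[X]) (hv : ∀ i, (v i).natDegree ≤ d)
    (h : (Em (aX a) * P * (Em (aX a))⁻¹) *ᵥ (fun i => ι C (v i)) = 0) : v = 0 := by
  obtain ⟨E1, E2, h12, h21, hm1, hm2, hc1, hc2⟩ := frame hEDet ha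
  have hu := isUnit_iff_ne_zero.2 (hEDet _ _ _ (inj_aX ha))
  have h3 : E2 *ᵥ v = 0 := by
    refine hP _ (fun i => ?_) ?_
    · simp only [Matrix.mulVec, dotProduct]
      refine natDegree_sum_le_of_forall_le _ _ fun j _ => ?_
      obtain ⟨c, hc⟩ := hc2 i j
      rw [hc]
      exact deg_const_mul _ _ (hv j)
    · rw [map_mulVec', hm2, Matrix.mulVec_mulVec]
      have := congrArg (fun w => (Em (aX a))⁻¹ *ᵥ w) h
      simp only [Matrix.mulVec_zero, Matrix.mulVec_mulVec] at this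
      rwa [← Matrix.mul_assoc, ← Matrix.mul_assoc, Matrix.nonsing_inv_mul _ hu,
        Matrix.one_mul] at this
  have h4 : E1 *ᵥ (E2 *ᵥ v) = v := by
    rw [Matrix.mulVec_mulVec, h12, Matrix.one_mulVec]
  rw [← h4, h3, Matrix.mulVec_zero]

theorem row_gauge (P : Matrix (Fin n) (Fin n) (KX C)) (d : ℕ)
    (hP : ∀ v : Fin n → C[X], (∀ i, (v i).natDegree ≤ d) → (fun i => ι C (v i)) ᵥ* P = 0 → v = 0)
    (v : Fin n → C[X]) (hv : ∀ i, (v i).natDegree ≤ d)
    (h : (fun i => ι C (v i)) ᵥ* (Em (aX a) * P * (Em (aX a))⁻¹) = 0) : v = 0 := by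
  obtain ⟨E1, E2, h12, h21, hm1, hm2, hc1, hc2⟩ := frame hEDet ha
  have hu := isUnit_iff_ne_zero.2 (hEDet _ _ _ (inj_aX ha))
  have h3 : v ᵥ* E1 = 0 := by
    refine hP _ (fun i => ?_) ?_
    · simp only [Matrix.vecMul, dotProduct]
      refine natDegree_sum_le_of_forall_le _ _ fun j _ => ?_
      obtain ⟨c, hc⟩ := hc1 j i
      rw [hc, mul_comm]
      exact deg_const_mul _ _ (hv j)
    · rw [map_vecMul', hm1, Matrix.vecMul_vecMul]
      have := congrArg (fun w => w ᵥ* (Em (aX a))) h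
      simp only [Matrix.zero_vecMul, Matrix.vecMul_vecMul] at this
      rwa [Matrix.mul_assoc _ _ (Em (aX a)), Matrix.nonsing_inv_mul _ hu,
        Matrix.mul_one] at this
  have h4 : (v ᵥ* E1) ᵥ* E2 = v := by
    rw [Matrix.vecMul_vecMul, h12, Matrix.vecMul_one]
  rw [← h4, h3, Matrix.zero_vecMul]

theorem comm_gauge (P : Matrix (Fin n) (Fin n) (KX C)) (d : ℕ)
    (hP : ∀ x : Matrix (Fin n) (Fin n) C[X], (∀ i j, (x i j).natDegree ≤ d) →
      x.map (ι C) * P = P * x.map (ι C) → ∃ c : C[X], x = Matrix.diagonal fun _ => c)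
    (x : Matrix (Fin n) (Fin n) C[X]) (hx : ∀ i j, (x i j).natDegree ≤ d)
    (h : x.map (ι C) * (Em (aX a) * P * (Em (aX a))⁻¹) =
      (Em (aX a) * P * (Em (aX a))⁻¹) * x.map (ι C)) :
    ∃ c : C[X], x = Matrix.diagonal fun _ => c := by
  obtain ⟨E1, E2, h12, h21, hm1, hm2, hc1, hc2⟩ := frame hEDet ha
  have hu := isUnit_iff_ne_zero.2 (hEDet _ _ _ (inj_aX ha))
  set E := Em (aX a) with hEdef
  have e1 : E⁻¹ * E = 1 := Matrix.nonsing_inv_mul _ hu
  have h1 : (E2 * x * E1).map (ι C) * P = P * (E2 * x * E1).map (ι C) := by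
    rw [Matrix.map_mul, Matrix.map_mul, hm1, hm2]
    have : E⁻¹ * (x.map (ι C) * (E * P * E⁻¹)) * E = E⁻¹ * (E * P * E⁻¹ * x.map (ι C)) * E := by
      rw [h]
    have l1 : E⁻¹ * (x.map (ι C) * (E * P * E⁻¹)) * E = E⁻¹ * x.map (ι C) * E * P := by
      calc E⁻¹ * (x.map (ι C) * (E * P * E⁻¹)) * E =
          E⁻¹ * x.map (ι C) * E * P * (E⁻¹ * E) := by simp only [Matrix.mul_assoc]
        _ = _ := by rw [e1, Matrix.mul_one]
    have l2 : E⁻¹ * (E * P * E⁻¹ * x.map (ι C)) * E = P * (E⁻¹ * x.map (ι C) * E) := by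
      calc E⁻¹ * (E * P * E⁻¹ * x.map (ι C)) * E =
          (E⁻¹ * E) * P * (E⁻¹ * x.map (ι C) * E) := by simp only [Matrix.mul_assoc]
        _ = _ := by rw [e1, Matrix.one_mul]
    rw [l1, l2] at this
    exact this
  obtain ⟨c, hc⟩ := hP _ (deg_r hc1 (deg_l hc2 hx)) h1
  refine ⟨c, ?_⟩
  have h5 : x = E1 * (E2 * x * E1) * E2 := by
    calc x = (E1 * E2) * x * (E1 * E2) := by rw [h12, Matrix.one_mul, Matrix.mul_one]
      _ = _ := by simp only [Matrix.mul_assoc]
  rw [h5, hc]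
  have h6 : (Matrix.diagonal fun _ => c : Matrix (Fin n) (Fin n) C[X]) = c • 1 := by
    ext i j
    by_cases hij : i = j
    · subst hij
      simp
    · simp [hij]
  rw [h6, Matrix.mul_smul, Matrix.smul_mul, Matrix.mul_one, h12]

theorem form_gauge (P : Matrix (Fin n) (Fin n) (KX C)) (d : ℕ)
    (hP : ∀ x : Matrix (Fin n) (Fin n) C[X], (∀ i j, (x i j).natDegree ≤ d) →
      P * x.map (ι C) + x.map (ι C) * Pᵀ = 0 → x = 0)
    (x : Matrix (Fin n) (Fin n) C[X]) (hx : ∀ i j, (x i j).natDegree ≤ d)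
    (h : (Em (aX a) * P * (Em (aX a))⁻¹) * x.map (ι C) +
      x.map (ι C) * (Em (aX a) * P * (Em (aX a))⁻¹)ᵀ = 0) : x = 0 := by
  obtain ⟨E1, E2, h12, h21, hm1, hm2, hc1, hc2⟩ := frame hEDet ha
  have hu := isUnit_iff_ne_zero.2 (hEDet _ _ _ (inj_aX ha))
  set E := Em (aX a) with hEdef
  have e1 : E⁻¹ * E = 1 := Matrix.nonsing_inv_mul _ hu
  have e2 : Eᵀ * E⁻¹ᵀ = 1 := by rw [← Matrix.transpose_mul, e1, Matrix.transpose_one]
  have h1 : P * (E2 * x * E2ᵀ).map (ι C) + (E2 * x * E2ᵀ).map (ι C) * Pᵀ = 0 := by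
    rw [Matrix.map_mul, Matrix.map_mul, Matrix.transpose_map, hm2]
    have h3 : E⁻¹ * (E * P * E⁻¹ * x.map (ι C) + x.map (ι C) * (E * P * E⁻¹)ᵀ) * E⁻¹ᵀ = 0 := by
      rw [h, Matrix.mul_zero, Matrix.zero_mul]
    rw [Matrix.mul_add, Matrix.add_mul] at h3
    have l1 : E⁻¹ * (E * P * E⁻¹ * x.map (ι C)) * E⁻¹ᵀ = P * (E⁻¹ * x.map (ι C) * E⁻¹ᵀ) := by
      calc E⁻¹ * (E * P * E⁻¹ * x.map (ι C)) * E⁻¹ᵀ =
          (E⁻¹ * E) * P * (E⁻¹ * x.map (ι C) * E⁻¹ᵀ) := by simp only [Matrix.mul_assoc]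
        _ = _ := by rw [e1, Matrix.one_mul]
    have l2 : E⁻¹ * (x.map (ι C) * (E * P * E⁻¹)ᵀ) * E⁻¹ᵀ = E⁻¹ * x.map (ι C) * E⁻¹ᵀ * Pᵀ := by
      calc E⁻¹ * (x.map (ι C) * (E * P * E⁻¹)ᵀ) * E⁻¹ᵀ =
          E⁻¹ * x.map (ι C) * E⁻¹ᵀ * Pᵀ * (Eᵀ * E⁻¹ᵀ) := by
            simp only [Matrix.transpose_mul, Matrix.mul_assoc]
        _ = _ := by rw [e2, Matrix.mul_one]
    rw [l1, l2] at h3
    exact h3
  have hct : ∀ i j, ∃ c : C, E2ᵀ i j = Polynomial.C c := fun i j => hc2 j i
  have h4 := hP _ (deg_r hct (deg_l hc2 hx)) h1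
  have h5 : x = E1 * (E2 * x * E2ᵀ) * E1ᵀ := by
    have h6 : E2ᵀ * E1ᵀ = 1 := by rw [← Matrix.transpose_mul, h12, Matrix.transpose_one]
    calc x = (E1 * E2) * x * (E2ᵀ * E1ᵀ) := by rw [h12, h6, Matrix.one_mul, Matrix.mul_one]
      _ = _ := by simp only [Matrix.mul_assoc]
  rw [h5, h4, Matrix.mul_zero, Matrix.zero_mul]

theorem pcv_Bkx {D : Der (KX C)} (hD : IsDer D) (p : ℕ) [Fact p.Prime] [CharP C p] (κ₀ : KX C) :
    pcv D (Bkx κ₀ (tX C) (aX a)) p =
    Em (aX a) * pcv D (Bk κ₀ (tX C) (aX a)) p * (Em (aX a))⁻¹ := by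
  refine gauge p D (isDer_iter hD p) _ _ (hEDet _ _ _ (inj_aX ha)) fun i j => ?_
  rw [Em_aX, Matrix.map_apply, D_κ hD]

omit hEDet ha in
theorem ratio_nat (p : ℕ) [Fact p.Prime] {F : Type} [Field F] [CharP F p] {s m : ℕ} (hs : 0 < s)
    (hsm : s < m) (hp : m < p) : ∃ q : ℕ, q < p ∧ (q : F) + 1 = (s : F) / (m : F) := by
  have hz : ∀ k : ℕ, 0 < k → k < p → (k : ZMod p) ≠ 0 := by
    intro k h1 h2 h3
    rw [ZMod.natCast_eq_zero_iff] at h3
    exact absurd (Nat.le_of_dvd h1 h3) (not_le.2 h2)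
  set r : ZMod p := (s : ZMod p) / (m : ZMod p) with hr
  have hr0 : r ≠ 0 := div_ne_zero (hz s hs (by omega)) (hz m (by omega) hp)
  have hv0 : r.val ≠ 0 := fun h => hr0 ((ZMod.val_eq_zero r).1 h)
  have hvp : r.val < p := ZMod.val_lt r
  refine ⟨r.val - 1, by omega, ?_⟩
  have h1 : ((r.val - 1 : ℕ) : F) + 1 = (r.val : F) := by
    rw [Nat.cast_sub (by omega)]
    simp
  have h2 : (r.val : F) = ZMod.castHom (dvd_refl p) F (r.val : ZMod p) := by rw [map_natCast]
  rw [h1, h2, ZMod.natCast_zmod_val, hr, map_div₀, map_natCast, map_natCast]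

theorem rank_Bkx {D : Der (KX C)} (hD : IsDer D) (p : ℕ) [Fact p.Prime] [CharP C p]
    (hRank : K_Rank) {s m : ℕ} (hs : 0 < s) (hsm : s < m) (hp : m < p) :
    ∃ z l : Fin n → KX C, pcv D (Bkx ((s : KX C) / (m : KX C)) (tX C) (aX a)) p =
      Matrix.vecMulVec z l := by
  obtain ⟨q, hq, hqe⟩ := ratio_nat p (F := KX C) hs hsm hp
  obtain ⟨z, l, h⟩ := hRank (KX C) p D (isDer_iter hD p) q hq n (tX C) (aX a) (D_tX hD)
    (fun j => D_κ hD (a j)) (inj_aX ha)
  refine ⟨Em (aX a) *ᵥ z, l ᵥ* (Em (aX a))⁻¹, ?_⟩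
  rw [pcv_Bkx hEDet ha hD p, ← hqe, h, Matrix.mul_vecMulVec, Matrix.vecMulVec_mul]

end one

/-- Package KE. -/
theorem kcon (hEDet : S_EDet) (hLI : K_LI) (hLID : K_LID) (hComm : K_Comm) (hNF : K_NoForm)
    (hRank : K_Rank) (hLie : K_Lie) : K_Con := by
  intro n m s hn hs hsm hdvd h2s U C _ p _ _ hp a ha Df hDf f hf hfD A hA θ hθ
  classical
  -- characteristic zero
  have hcast : ∀ (i : ℕ) (m : ℕ), 1 ≤ m → m < p i → ((m : ℕ) : C i) ≠ 0 := by
    intro i m h1 h2 h3
    rw [CharP.cast_eq_zero_iff (C i) (p i)] at h3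
    exact absurd (Nat.le_of_dvd h1 h3) (not_le.2 h2)
  have hC0 : CharZero (UP U C) := Helper62.BM.charZero U fun m hm => by
    filter_upwards [hp m] with i hi
    exact hcast i m hm hi
  have hDp : ∀ (i : ℕ) (c : KX (C i)), (⇑(Df i))^[p i] c = 0 := fun i c => isDer_iter (hDf i) (p i) c
  have hE : ∀ i, (Em (aX (a i))).det ≠ 0 := fun i => hEDet _ _ _ (inj_aX (ha i))
  -- the values of `f`
  have hft : f (tX (UP U C)) = mk U fun i => tX (C i) := by
    have := hf X
    rw [Polynomial.map_X] at this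
    rw [this]
    congr 1
    funext i
    rw [Polynomial.map_X]
  have hfa : ∀ j, f (aX (fun j => mk U fun i => a i j) j) = mk U fun i => aX (a i) j := by
    intro j
    have := hf (Polynomial.C fun i => a i j)
    rw [Polynomial.map_C] at this
    rw [this]
    congr 1
    funext i
    rw [Polynomial.map_C]
    rfl
  set ah : Fin n → UP U C := fun j => mk U fun i => a i j with hah
  have hah_inj : Function.Injective ah := by
    intro j l h
    rw [hah] at h
    simp only at h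
    rw [mk_eq] at h
    obtain ⟨i, hi⟩ := h.exists
    exact ha i hi
  have hEk : (Em (aX ah)).det ≠ 0 := hEDet _ _ _ (inj_aX hah_inj)
  have hfB : (Bkx ((s : KX (UP U C)) / (m : KX (UP U C))) (tX (UP U C)) (aX ah)).map f =
      mkM U fun i => Bkx ((s : KX (C i)) / (m : KX (C i))) (tX (C i)) (aX (a i)) := by
    rw [Bkx_map f _ _ _ hEk, mk_Bkx U _ _ _ hE, hft, map_div₀, map_natCast, map_natCast, mk_ratio]
    congr 1
    funext j
    exact hfa j
  set ψi : ∀ i, Matrix (Fin n) (Fin n) (KX (C i)) :=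
    fun i => pcv (Df i) (Bkx ((s : KX (C i)) / (m : KX (C i))) (tX (C i)) (aX (a i))) (p i) with hψi
  have hψe : ∀ i, ψi i = Em (aX (a i)) *
      pcv (Df i) (Bk ((s : KX (C i)) / (m : KX (C i))) (tX (C i)) (aX (a i))) (p i) *
        (Em (aX (a i)))⁻¹ := fun i => pcv_Bkx hEDet (ha i) (hDf i) (p i) _
  set ψ := mkM U ψi with hψ
  -- kernel for families
  have hker : ∀ q : Fin n → Polynomial (∀ i, C i),
      (∀ᶠ i in (U : Filter ℕ), ψi i *ᵥ (fun j => ι (C i) ((q j).map (Pi.evalRingHom C i))) = 0) →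
      ∀ j, (q j).map (mk U) = 0 := by
    intro q hq j
    obtain ⟨d, hd⟩ := deg_bound q
    obtain ⟨N, hN⟩ := hLI n m s d hn hs hsm
    apply map_zero_of
    filter_upwards [hq, hp N] with i h1 h2
    rw [hψe i] at h1
    exact congrFun (ker_gauge hEDet (ha i) _ d
      (fun v hv => hN (C i) (p i) h2 (Df i) (hDf i) (a i) (ha i) v hv)
      (fun j => (q j).map (Pi.evalRingHom C i)) (fun j => hd j i) h1) j
  letI : Algebra (KX (UP U C)) (UP U fun i => KX (C i)) := f.toAlgebra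
  have hmapf : ∀ (M : Matrix (Fin n) (Fin n) (KX (UP U C))),
      M.map (algebraMap (KX (UP U C)) (UP U fun i => KX (C i))) = M.map f := fun _ => rfl
  refine hLie (KX (UP U C)) (UP U fun i => KX (C i)) n ψ hn ?_ ?_ ?_ ?_ ?_ ?_ ?_ A hA θ hθ
  · -- rank one
    have h1 : ∀ i, ∃ z l : Fin n → KX (C i), m < p i → ψi i = Matrix.vecMulVec z l := by
      intro i
      by_cases h : m < p i
      · obtain ⟨z, l, h3⟩ := rank_Bkx hEDet (ha i) (hDf i) (p i) hRank hs hsm h
        exact ⟨z, l, fun _ => h3⟩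
      · exact ⟨0, 0, fun h' => absurd h' h⟩
    choose z l hzl using h1
    refine ⟨fun j => mk U fun i => z i j, fun j => mk U fun i => l i j, ?_⟩
    have h2 : ψ = mkM U fun i => Matrix.vecMulVec (z i) (l i) := by
      rw [hψ, mkM_eq]
      filter_upwards [hp m] with i hi
      exact hzl i hi
    rw [h2]
    ext j m
    rw [mkM_apply, Matrix.vecMulVec_apply, ← map_mul]
    rfl
  · -- not zero
    intro h0
    have h1 : ∀ᶠ i in (U : Filter ℕ), ψi i = 0 := by
      have : mkM U ψi = mkM U fun i => (0 : Matrix (Fin n) (Fin n) (KX (C i))) := by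
        rw [mk_zero, ← hψ, h0]
      exact (mkM_eq U).1 this
    have h2 := hker (fun _ => 1) (by
      filter_upwards [h1] with i hi
      rw [hi, Matrix.zero_mulVec]) ⟨0, by omega⟩
    rw [Polynomial.map_one] at h2
    exact one_ne_zero h2
  · -- kernel
    intro v hv
    obtain ⟨d, q, hd, hq⟩ := lift_fam U v
    have h1 : ∀ᶠ i in (U : Filter ℕ),
        ψi i *ᵥ (fun j => ι (C i) ((q j).map (Pi.evalRingHom C i))) = 0 := by
      have h2 : ψ *ᵥ (fun j => f (ι _ ((q j).map (mk U)))) = 0 := by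
        have h3 : (fun j => f (ι _ ((q j).map (mk U)))) =
            f d • fun j => algebraMap (KX (UP U C)) (UP U fun i => KX (C i)) (v j) := by
          funext j
          rw [← hq j, map_mul]
          rfl
        rw [h3, Matrix.mulVec_smul, hv, smul_zero]
      have h4 : ∀ j, ∀ᶠ i in (U : Filter ℕ),
          (ψi i *ᵥ (fun j => ι (C i) ((q j).map (Pi.evalRingHom C i)))) j = 0 := by
        intro j
        have h5 : ∑ l, ψ j l * f (ι _ ((q l).map (Helper62.BM.mk U))) = 0 := congrFun h2 j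
        have h6 : (fun i => (ψi i *ᵥ (fun j => ι (C i) ((q j).map (Pi.evalRingHom C i)))) j) =
            fun i => ∑ l, (fun i => ψi i j l * ι (C i) ((q l).map (Pi.evalRingHom C i))) i := rfl
        rw [← mk_eq_zero, h6, mk_sum, ← h5]
        refine Finset.sum_congr rfl fun l _ => ?_
        rw [hf, hψ, mkM_apply, ← map_mul]
        rfl
      filter_upwards [Filter.eventually_all.2 h4] with i hi
      funext j
      exact hi j
    funext j
    have h6 := hker q h1 j
    have h7 := hq j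
    rw [h6, map_zero] at h7
    exact (mul_eq_zero.1 h7).resolve_left hd
  · -- rows
    intro v hv
    obtain ⟨d, q, hd, hq⟩ := lift_fam U v
    have h1 : ∀ᶠ i in (U : Filter ℕ),
        (fun j => ι (C i) ((q j).map (Pi.evalRingHom C i))) ᵥ* ψi i = 0 := by
      have h2 : (fun j => f (ι _ ((q j).map (mk U)))) ᵥ* ψ = 0 := by
        have h3 : (fun j => f (ι _ ((q j).map (mk U)))) =
            f d • fun j => algebraMap (KX (UP U C)) (UP U fun i => KX (C i)) (v j) := by
          funext j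
          rw [← hq j, map_mul]
          rfl
        rw [h3, Matrix.smul_vecMul, hv, smul_zero]
      have h4 : ∀ j, ∀ᶠ i in (U : Filter ℕ),
          ((fun j => ι (C i) ((q j).map (Pi.evalRingHom C i))) ᵥ* ψi i) j = 0 := by
        intro j
        have h5 : ∑ l, f (ι _ ((q l).map (Helper62.BM.mk U))) * ψ l j = 0 := congrFun h2 j
        have h6 : (fun i => ((fun j => ι (C i) ((q j).map (Pi.evalRingHom C i))) ᵥ* ψi i) j) =
            fun i => ∑ l, (fun i => ι (C i) ((q l).map (Pi.evalRingHom C i)) * ψi i l j) i := rfl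
        rw [← mk_eq_zero, h6, mk_sum, ← h5]
        refine Finset.sum_congr rfl fun l _ => ?_
        rw [hf, hψ, mkM_apply, ← map_mul]
        rfl
      filter_upwards [Filter.eventually_all.2 h4] with i hi
      funext j
      exact hi j
    obtain ⟨b, hb⟩ := deg_bound q
    obtain ⟨N, hN⟩ := hLID n m s b hn hs hsm hdvd
    funext j
    have h6 : (q j).map (mk U) = 0 := by
      apply map_zero_of
      filter_upwards [h1, hp N] with i h1 h2
      rw [hψe i] at h1
      exact congrFun (row_gauge hEDet (ha i) _ b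
        (fun v hv => hN (C i) (p i) h2 (Df i) (hDf i) (a i) (ha i) v hv)
        (fun j => (q j).map (Pi.evalRingHom C i)) (fun j => hb j i) h1) j
    have h7 := hq j
    rw [h6, map_zero] at h7
    exact (mul_eq_zero.1 h7).resolve_left hd
  · -- commutant
    intro x hx
    obtain ⟨d, q, hd, hq⟩ := lift_fam U fun s : Fin n × Fin n => x s.1 s.2
    obtain ⟨b, hb⟩ := deg_bound q
    obtain ⟨N, hN⟩ := hComm n m s b hn hs hsm hdvd
    set xi : ∀ i, Matrix (Fin n) (Fin n) (C i)[X] :=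
      fun i => Matrix.of fun j l => (q (j, l)).map (Pi.evalRingHom C i) with hxi
    have h1 : (mkM U fun i => (xi i).map (ι (C i))) = f d • x.map f := by
      ext j l
      rw [mkM_apply, Matrix.smul_apply, Matrix.map_apply, smul_eq_mul, ← map_mul, hq (j, l), hf]
      rfl
    have h2 : ∀ᶠ i in (U : Filter ℕ), (xi i).map (ι (C i)) * ψi i = ψi i * (xi i).map (ι (C i)) := by
      rw [← mkM_eq, mkM_mul, mkM_mul, h1, Matrix.smul_mul, Matrix.mul_smul]
      congr 1
    have h3 : ∀ᶠ i in (U : Filter ℕ), ∃ c : (C i)[X], xi i = Matrix.diagonal fun _ => c := by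
      filter_upwards [h2, hp N] with i h4 h5
      rw [hψe i] at h4
      exact comm_gauge hEDet (ha i) _ b
        (fun v hv => hN (C i) (p i) h5 (Df i) (hDf i) (a i) (ha i) v hv) (xi i)
        (fun j l => hb (j, l) i) h4
    have h4 : ∀ j l, j ≠ l → x j l = 0 := by
      intro j l hjl
      have h5 : (q (j, l)).map (mk U) = 0 := by
        apply map_zero_of
        filter_upwards [h3] with i hi
        obtain ⟨c, hc⟩ := hi
        have := congrFun (congrFun hc j) l
        rw [Matrix.diagonal_apply_ne _ hjl] at this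
        exact this
      have h7 := hq (j, l)
      rw [h5, map_zero] at h7
      exact (mul_eq_zero.1 h7).resolve_left hd
    have h5 : ∀ j l, x j j = x l l := by
      intro j l
      have h6 : (q (j, j) - q (l, l)).map (mk U) = 0 := by
        apply map_zero_of
        filter_upwards [h3] with i hi
        obtain ⟨c, hc⟩ := hi
        have e1 := congrFun (congrFun hc j) j
        have e2 := congrFun (congrFun hc l) l
        rw [Matrix.diagonal_apply_eq] at e1 e2
        rw [Polynomial.map_sub]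
        exact sub_eq_zero.2 (e1.trans e2.symm)
      rw [Polynomial.map_sub] at h6
      have h7 : d * (x j j - x l l) = 0 := by
        rw [mul_sub]
        have e1 := hq (j, j)
        have e2 := hq (l, l)
        simp only at e1 e2
        rw [e1, e2, ← map_sub, h6, map_zero]
      exact sub_eq_zero.1 ((mul_eq_zero.1 h7).resolve_left hd)
    refine ⟨x ⟨0, by omega⟩ ⟨0, by omega⟩, ?_⟩
    ext j l
    by_cases hjl : j = l
    · subst hjl
      rw [Matrix.diagonal_apply_eq]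
      exact h5 _ _
    · rw [Matrix.diagonal_apply_ne _ hjl]
      exact h4 _ _ hjl
  · -- no form
    intro hn3 x hx
    obtain ⟨d, q, hd, hq⟩ := lift_fam U fun s : Fin n × Fin n => x s.1 s.2
    obtain ⟨b, hb⟩ := deg_bound q
    obtain ⟨N, hN⟩ := hNF n m s b hn3 hs hsm h2s
    set xi : ∀ i, Matrix (Fin n) (Fin n) (C i)[X] :=
      fun i => Matrix.of fun j l => (q (j, l)).map (Pi.evalRingHom C i) with hxi
    have h1 : (mkM U fun i => (xi i).map (ι (C i))) = f d • x.map f := by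
      ext j l
      rw [mkM_apply, Matrix.smul_apply, Matrix.map_apply, smul_eq_mul, ← map_mul, hq (j, l), hf]
      rfl
    have h2 : ∀ᶠ i in (U : Filter ℕ),
        ψi i * (xi i).map (ι (C i)) + (xi i).map (ι (C i)) * (ψi i)ᵀ = 0 := by
      rw [← mkM_eq U (M := fun i => ψi i * (xi i).map (ι (C i)) + (xi i).map (ι (C i)) * (ψi i)ᵀ)
        (N := fun i => 0), mkM_add, mkM_mul, mkM_mul, mkM_transpose, h1, mk_zero, Matrix.smul_mul,
        Matrix.mul_smul, ← smul_add]
      have hx' : ψ * x.map f + x.map f * ψᵀ = 0 := hx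
      rw [hx', smul_zero]
    have h3 : ∀ᶠ i in (U : Filter ℕ), xi i = 0 := by
      filter_upwards [h2, hp N] with i h4 h5
      rw [hψe i] at h4
      exact form_gauge hEDet (ha i) _ b
        (fun v hv => hN (C i) (p i) h5 (Df i) (hDf i) (a i) (ha i) v hv) (xi i)
        (fun j l => hb (j, l) i) h4
    ext j l
    have h5 : (q (j, l)).map (mk U) = 0 := by
      apply map_zero_of
      filter_upwards [h3] with i hi
      exact congrFun (congrFun hi j) l
    have h7 := hq (j, l)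
    rw [h5, map_zero] at h7
    exact (mul_eq_zero.1 h7).resolve_left hd
  · -- the span is stable
    intro θ' hθ'
    set D := der U Df with hD
    set B := mkM U fun i => Bkx ((s : KX (C i)) / (m : KX (C i))) (tX (C i)) (aX (a i)) with hB
    set W : Submodule (UP U fun i => KX (C i))
        (Matrix (Fin n) (Fin n) (UP U fun i => KX (C i))) :=
      Submodule.span (UP U fun i => KX (C i)) {η | ∃ θ' : Matrix (Fin n) (Fin n)
        (KX (UP U C)), (θ'.map (algebraMap (KX (UP U C)) (UP U fun i => KX (C i))) * ψ).trace = 0 ∧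
          η = θ'.map (algebraMap (KX (UP U C)) (UP U fun i => KX (C i)))} with hW
    have hNψ : NB D B ψ = 0 := by
      rw [hD, hB, hψ, ← mkM_NB, ← mk_zero U]
      congr 1
      funext i
      exact hor_pcv (p i) (Df i) (hDp i) _
    obtain ⟨Dk, hDk, -⟩ := Pool.Agent.Helper12.BM.frac (UP U C)
    have hst : ∀ η ∈ W, NB D B η ∈ W := by
      have := stable f Dk D (hfD Dk hDk)
        (Bkx ((s : KX (UP U C)) / (m : KX (UP U C))) (tX (UP U C)) (aX ah)) ψ
        (by rw [hfB]; exact hNψ)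
      rw [hfB] at this
      exact this
    have hmem : θ'.map (algebraMap (KX (UP U C)) (UP U fun i => KX (C i))) ∈ W :=
      Submodule.subset_span ⟨θ', hθ', rfl⟩
    exact dpm U (fun i => KX (C i)) p Df hDp n
      (fun i => Bkx ((s : KX (C i)) / (m : KX (C i))) (tX (C i)) (aX (a i))) W hst _ hmem

end Pool.Agent.Helper61.BM
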